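import Pool.Agent.Helper20.QP.St3

/-!
Project QD (MP_d112a4_gt), part P (helper20), module MUA: Mumford compactness with markings.
-/

set_option autoImplicit false

open Filter Topology Matrix Set Metric MeasureTheory
open scoped ComplexConjugate ENNReal

namespace Pool.Agent.Helper81.QP

open Pool.Agent.Helper35.PM Pool.Agent.Helper20.QD Pool.Agent.Helper20.QP
open Pool.Agent.Helper17.QD (Thk QcE Cnj pre cc)

private theorem pre_apply {Γ : Type} [Group Γ] (φ : Γ ≃* Γ) (s : Γ →* SL) (γ : Γ) :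
    pre φ s γ = s (φ γ) := rfl

private theorem cc_apply {Γ : Type} [Group Γ] (s : Γ →* SL) (γ : Γ) (i j : Fin 2) :
    ((cc s γ : SL) : Mat) i j = conj ((s γ : Mat) i j) := by
  simp [cc, Matrix.SpecialLinearGroup.map_apply_coe]

private theorem fuch_pre {Γ : Type} [Group Γ] (φ : Γ ≃* Γ) (s : Γ →* SL) (h : Fuch s) :
    Fuch (pre φ s) where
  su γ := h.su (φ γ)
  discrete := by
    intro X
    have := (h.discrete X).preimage (f := φ) (φ.injective.injOn)
    exact this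
  cocompact := by
    obtain ⟨r, hr, hc⟩ := h.cocompact
    refine ⟨r, hr, fun z hz => ?_⟩
    obtain ⟨γ, hγ⟩ := hc z hz
    refine ⟨φ.symm γ, ?_⟩
    rw [pre_apply, φ.apply_symm_apply]
    exact hγ

private theorem tr_real (A : SL) (hA : IsSU A) : (A : Mat).trace.im = 0 := by
  rw [Matrix.trace_fin_two, hA.1]
  simp

private theorem thick_of_thk {Γ : Type} [Group Γ] (σ : Γ →* SL) (h : Fuch σ) (ε : ℝ) (hε : 0 < ε)
    (ht : Thk ε σ) : Thick σ ((2 + ε) ^ 2 / 4 - 1) := by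
  intro γ hγ
  have h1 := ht γ hγ
  have h2 := tr_real (σ γ) (h.su γ)
  have h3 : ‖(σ γ : Mat).trace‖ ^ 2 = (σ γ : Mat).trace.re ^ 2 := by
    rw [← Complex.normSq_eq_norm_sq, Complex.normSq_apply, h2]
    ring
  unfold sh
  have h4 : (2 + ε) ^ 2 ≤ (σ γ : Mat).trace.re ^ 2 := by
    rw [← h3]
    exact pow_le_pow_left₀ (by linarith) h1 2
  linarith

theorem hMUA (hMUM : StMUM) (hBDX : StBDX) (hAAIN : StAAIN) (hATFR : StATFR) : StMUA := by
  intro g hg s0 hs0 ε hε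
  have tf : TF (SurfaceGroup g) := hATFR g
  obtain ⟨F0, hF0⟩ := (hAAIN _ s0 s0 hs0 hs0 tf).1
  have hε' : 0 < (2 + ε) ^ 2 / 4 - 1 := by nlinarith
  obtain ⟨k, hk0, hk1, hM⟩ := hMUM (SurfaceGroup g) s0
    (∫ z in F0, 4 / (1 - ‖z‖ ^ 2) ^ 2) ((2 + ε) ^ 2 / 4 - 1) tf hs0 hε' (by
      intro σ hσ
      obtain ⟨⟨F1, hF1⟩, h2⟩ := hAAIN _ σ s0 hσ hs0 tf
      exact ⟨F1, hF1, (h2 F1 F0 hF1 hF0).le⟩)
  refine ⟨k, hk0, hk1, fun σ hσ hThk => ?_⟩
  obtain ⟨φ, σ', E, hσ', hor, hbij, hc1, hdil, heqv⟩ := hM σ hσ (thick_of_thk σ hσ ε hε hThk)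
  obtain ⟨E', e1, e2, e3, e4⟩ := hBDX _ (pre φ s0) σ' E (fuch_pre φ s0 hs0) hσ' hbij
    hc1.continuousOn (fun γ z hz => heqv γ z hz)
  have hEE : EqOn E' E D := fun z hz => e1 z hz
  have hfd : ∀ z ∈ D, fderiv ℝ E' z = fderiv ℝ E z := by
    intro z hz
    apply Filter.EventuallyEq.fderiv_eq
    filter_upwards [isOpen_ball.mem_nhds hz] with w hw
    exact e1 w hw
  refine ⟨φ, E', ⟨e2, hbij.congr hEE.symm, e3, hc1.congr hEE, fun z hz => ?_⟩, ?_⟩
  · have h1 : dz E' z = dz E z := by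
      unfold Pool.Agent.Helper20.QD.dz
      rw [hfd z hz]
    have h2 : dzb E' z = dzb E z := by
      unfold Pool.Agent.Helper20.QD.dzb
      rw [hfd z hz]
    rw [h1, h2]
    exact hdil z hz
  · rcases hor with hs | hs
    · left
      intro γ z hz
      rw [e4 γ z hz, hs γ]
    · right
      intro γ z hz
      rw [e4 γ z hz]
      congr 1
      apply Matrix.SpecialLinearGroup.ext
      intro i j
      rw [hs γ i j, cc_apply]

end Pool.Agent.Helper81.QP
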